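import Pool.Agent.W973.CES.Defs

/-! The matching with given gadget states. -/

set_option autoImplicit false

namespace Pool.Agent.W479.CES

open Pool.Agent.W973.CES Pool.Agent.NPC

theorem fl_div (st : ℕ → Bool) (x : ℕ) : fl st x / 2 = x / 2 := by
  unfold fl; split_ifs <;> omega

theorem fl_fl (st : ℕ → Bool) (x : ℕ) : fl st (fl st x) = x := by
  have h := fl_div st x
  unfold fl at h ⊢
  by_cases hs : st (x / 2) = true
  · simp only [hs, if_true]
  · simp only [hs, Bool.false_eq_true, if_false] at h ⊢
    rw [h]
    simp only [hs, Bool.false_eq_true, if_false]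
    omega

theorem fl_lt (st : ℕ → Bool) (n x : ℕ) (hx : x < 2 * n) : fl st x < 2 * n := by
  have := fl_div st x
  omega

theorem fl_inj (st : ℕ → Bool) {x y : ℕ} (h : fl st x = fl st y) : x = y := by
  rw [← fl_fl st x, h, fl_fl]

theorem mt_nodup (st : ℕ → Bool) (n : ℕ) : (mt st n).Nodup := by
  unfold W973.CES.mt
  exact List.Nodup.map (fun x y h => fl_inj st h) List.nodup_range

theorem mt_len (st : ℕ → Bool) (n : ℕ) : (mt st n).length = n := by
  unfold W973.CES.mt; simp

theorem mt_get (st : ℕ → Bool) (n i : ℕ) (hi : i < (mt st n).length) : (mt st n)[i] = fl st i := by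
  have h : ∀ (hi : i < ((List.range n).map (fl st)).length),
      ((List.range n).map (fl st))[i] = fl st i := by
    intro hi; simp
  exact h hi

theorem mtT : S_MT := by
  intro st n
  refine ⟨?_, fun x hx => ⟨?_, ?_, fl_lt st n x hx⟩⟩
  · rw [List.perm_ext_iff_of_nodup (mt_nodup st _) List.nodup_range]
    intro a
    unfold W973.CES.mt
    simp only [List.mem_map, List.mem_range]
    constructor
    · rintro ⟨b, hb, rfl⟩; exact fl_lt st n b hb
    · intro ha; exact ⟨fl st a, fl_lt st n a ha, fl_fl st a⟩
  · have h : x < (mt st (2 * n)).length := by rw [mt_len]; exact hx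
    rw [List.getD_eq_getElem _ _ h, mt_get]
  · have h : fl st x < (mt st (2 * n)).length := by rw [mt_len]; exact fl_lt st n x hx
    have h1 := (mt_nodup st (2 * n)).idxOf_getElem (fl st x) h
    rw [mt_get, fl_fl] at h1
    exact h1

end Pool.Agent.W479.CES
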